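import Pool.Agent.P.MP_74db7f_al.F.S5

/-! The Newton polygon argument: the distance to a right ideal along a dominant translation. -/

namespace Pool.Agent.P.MP_19ae20_al

open Pool.Agent.P.MP_74db7f_al Pool.Agent.P.MP_74db7f_al.HC
open scoped Classical Topology
open Filter

variable {B W H : Type*} [Group W] {M : CoxeterMatrix B} {cs : CoxeterSystem M W} [Ring H]
  [Algebra Rq H] {C : HC cs H} {K : Type*} [NontriviallyNormedField K] [CompleteSpace K]
  [IsUltrametricDist K] [Algebra Rq K] [GoodK K]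

theorem norm_lt_one {c c' : Op W K} (h : C0.IsAdj c c') (hc : c * c' = c' * c)
    (hr : Tendsto (fun k : ℕ => c ^ k) atTop (𝓝 0)) : ‖c‖ < 1 := by
  have h1 : ∀ k : ℕ, ‖c‖ ^ 2 ^ k ≤ ‖c ^ 2 ^ k‖ := by
    intro k
    induction k with
    | zero => simp
    | succ k ih =>
      rw [pow_succ, pow_mul, pow_mul]
      exact (pow_le_pow_left₀ (by positivity) ih 2).trans
        ((h.pow _).norm_sq_le_normal (Commute.pow_pow (show Commute c c' from hc) _ _).eq)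
  by_contra hlt
  have h3 := (tendsto_norm_zero.comp hr).comp
    (tendsto_pow_atTop_atTop_of_one_lt (one_lt_two (α := ℕ)))
  obtain ⟨k, hk⟩ := (h3.eventually (gt_mem_nhds (zero_lt_one' ℝ))).exists
  exact absurd ((one_le_pow₀ (not_lt.1 hlt)).trans (h1 k)) (not_le.2 hk)

variable {a : W → Finset B → Op W K}

theorem s4Q_pt_lt {J : Finset B} {w : W} {ρ : ℝ} (h0 : 0 ≤ ρ) (h1 : ρ ≤ 1) (L : List W)
    (hL : ∀ u ∈ L, a (w * u) J ∈ C.AJ K J 1 ∧ ∀ p : Pt (C.AJ K J 1), p.p (a (w * u) J) ≤ ρ)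
    (j : ℕ) (hj : j < L.length) (p : Pt (C.AJ K J 1)) : p.p ((s4Q a L w J).coeff j) ≤ ρ := by
  induction L generalizing j with
  | nil => exact absurd hj (Nat.not_lt_zero _)
  | cons u L ih =>
    have hu := hL u List.mem_cons_self
    have hL' := fun v hv => hL v (List.mem_cons_of_mem _ hv)
    have h2 := s4Q_pt (C := C) L fun v hv =>
      ⟨(hL' v hv).1, fun p => ((hL' v hv).2 p).trans h1⟩
    have hm : ∀ i, p.p (a (w * u) J * (s4Q a L w J).coeff i) ≤ ρ := fun i => by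
      rw [p.mul _ hu.1 _ (h2 i).1, ← mul_one ρ]
      exact mul_le_mul (hu.2 p) ((h2 i).2 p) (p.nonneg _ (h2 i).1) h0
    cases j with
    | zero =>
      rw [s4Q_zero, p.neg (mul_mem hu.1 (h2 0).1)]
      exact hm 0
    | succ j =>
      rw [s4Q_succ]
      rw [List.length_cons] at hj
      exact (p.sub_le (h2 j).1 (mul_mem hu.1 (h2 _).1)).trans
        (max_le (ih hL' j (by omega)) (hm _))

/-- Cayley-Hamilton with small coefficients -/
theorem charpoly_lt (ha : C.EquiL K a) {ρ : ℝ} (h0 : 0 ≤ ρ) (h1 : ρ < 1)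
    (hm : ∀ w ∈ C.W0, ∀ J ⊆ C.S0, a w J ∈ C.AJ K J 1 ∧
      ∀ p : Pt (C.AJ K J 1), p.p (a w J) ≤ ρ) :
    ∃ c : ℕ → Finset B → Op W K, (∀ j, C.Nat K (c j)) ∧ (∀ j < C.Mo, ‖c j C.S0‖ < 1) ∧
      a 1 C.S0 ^ C.Mo = -∑ j ∈ Finset.range C.Mo, c j C.S0 * a 1 C.S0 ^ j := by
  have hL : ∀ u ∈ (C.WF C.S0).toList, u ∈ C.W0 := fun u hu =>
    (C.mem_WF subset_rfl).1 (Finset.mem_toList.1 hu)
  have hinv : ∀ w ∈ C.W0, ∀ J ⊆ C.S0,
      s4Q a (C.WF C.S0).toList w J = s4Q a (C.WF C.S0).toList 1 J := by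
    intro w hw J hJ
    have hp : ((C.WF C.S0).toList.map fun u => w * u).Perm (C.WF C.S0).toList := by
      refine (List.perm_ext_iff_of_nodup ((Finset.nodup_toList _).map (mul_right_injective w))
        (Finset.nodup_toList _)).2 fun v => ?_
      rw [List.mem_map]
      constructor
      · rintro ⟨u, hu, rfl⟩
        exact Finset.mem_toList.2 ((C.mem_WF subset_rfl).2 (mul_mem hw (hL u hu)))
      · intro hv
        exact ⟨w⁻¹ * v, Finset.mem_toList.2 ((C.mem_WF subset_rfl).2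
          (mul_mem (inv_mem hw) (hL v hv))), mul_inv_cancel_left _ _⟩
    have := s4_perm hJ (fun u hu => (hm u hu J hJ).1) hp.symm hL
    rw [List.map_map] at this
    simp only [s4Q, one_mul]
    exact this.symm
  have hn : ∀ j, ∃ c', C.NatA K (fun J => (s4Q a (C.WF C.S0).toList 1 J).coeff j) c' := fun j =>
    (s4Q_equi ha _ hL j).inv (c := fun J => (s4Q a (C.WF C.S0).toList 1 J).coeff j)
      fun w hw J hJ => by rw [hinv w hw J hJ]
  refine ⟨fun j J => (s4Q a (C.WF C.S0).toList 1 J).coeff j, fun j => (hn j).choose_spec.1,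
    fun j hj => ?_, ?_⟩
  · obtain ⟨c', hc⟩ := hn j
    refine norm_lt_one (hc.2.2 _ subset_rfl) (hc.1.comm_nat hc.2.1 subset_rfl)
      ((spec_AJ1 subset_rfl).tendsto_pow (hc.1.mem_AJ subset_rfl) h1 fun p => ?_)
    exact s4Q_pt_lt h0 h1.le _ (fun u hu => hm _ (mul_mem (one_mem _) (hL u hu)) _ subset_rfl)
      j (by rwa [Finset.length_toList]) p
  · have hw' : (1 : W) ∈ (C.WF C.S0).toList :=
      Finset.mem_toList.2 ((C.mem_WF subset_rfl).2 (one_mem _))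
    have hp : (C.WF C.S0).toList.Perm ((C.WF C.S0).toList.erase 1 ++ [1]) :=
      (List.perm_cons_erase hw').trans (List.perm_append_singleton _ _).symm
    have e := s4_perm subset_rfl (fun u hu => (hm u hu _ subset_rfl).1) hp hL
    have h2 : (s4Q a (C.WF C.S0).toList 1 C.S0).eval (a 1 C.S0) = 0 := by
      simp only [s4Q, one_mul]
      rw [e, List.map_append, List.prod_append, List.map_singleton, List.prod_singleton,
        Polynomial.eval_mul_X_sub_C]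
    have ht := s4Q_top (a := a) (C.WF C.S0).toList 1 C.S0
    rw [Finset.length_toList] at ht
    have hd : (s4Q a (C.WF C.S0).toList 1 C.S0).natDegree < C.Mo + 1 :=
      Nat.lt_succ_of_le (Polynomial.natDegree_le_iff_coeff_eq_zero.2 ht.2)
    rw [Polynomial.eval_eq_sum_range' hd, Finset.sum_range_succ] at h2
    have h3 : (s4Q a (C.WF C.S0).toList 1 C.S0).coeff C.Mo = 1 := ht.1
    rw [h3, one_mul] at h2
    exact eq_neg_of_add_eq_zero_right h2

variable (C K) in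
/-- the closure of a set of elements of the Hecke algebra -/
noncomputable def cl (I : Set H) : Submodule K (C0 W K) :=
  (Submodule.span K (C.kap K C.S0 '' I)).topologicalClosure

variable {I : Set H}

theorem mem_cl {j : H} (hj : j ∈ I) : C.kap K C.S0 j ∈ cl C K I :=
  Submodule.le_topologicalClosure _ (Submodule.subset_span ⟨j, hj, rfl⟩)

theorem cl_le {E : Type*} [NormedAddCommGroup E] [NormedSpace K E] (F : C0 W K →L[K] E)
    (N : Submodule K E) (hN : IsClosed (N : Set E)) (h : ∀ j ∈ I, F (C.kap K C.S0 j) ∈ N)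
    {ξ : C0 W K} (hξ : ξ ∈ cl C K I) : F ξ ∈ N := by
  have : cl C K I ≤ N.comap (F : C0 W K →ₗ[K] E) :=
    Submodule.topologicalClosure_minimal _
      (Submodule.span_le.2 (by rintro _ ⟨j, hj, rfl⟩; exact h j hj))
      (hN.preimage F.continuous)
  exact this hξ

theorem mem_HJ (h : H) : h ∈ C.HJ C.S0 := by
  rw [C.HJ_S0]
  trivial

theorem Lop_mem (hI : ∀ j ∈ I, ∀ h, j * h ∈ I) {j : H} (hj : j ∈ I) (ξ : C0 W K) :
    C.Lop K C.S0 j ξ ∈ cl C K I := by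
  refine C0.induction (p := fun ξ => C.Lop K C.S0 j ξ ∈ cl C K I)
    ((Submodule.isClosed_topologicalClosure _).preimage (C.Lop K C.S0 j).continuous)
    (fun g => ?_) ξ
  rw [C0.fs, Finsupp.linearCombination_apply, Finsupp.sum, map_sum]
  refine Submodule.sum_mem _ fun w _ => ?_
  rw [map_smul, ← C.kap_TJ K C.S0, C.Lop_kap K subset_rfl (mem_HJ j)]
  exact Submodule.smul_mem _ _ (mem_cl (hI j hj _))

theorem nat_Lop {c : Finset B → Op W K} (hc : C.Nat K c) (h : H) (ξ : C0 W K) :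
    C.Lop K C.S0 h (c C.S0 ξ) = c C.S0 (C.Lop K C.S0 h ξ) := by
  rw [← mul_apply_eq_comp, hc.comm subset_rfl fun z => C.Lop_Rop K subset_rfl (mem_HJ h) z,
    mul_apply_eq_comp]

theorem nat_mem (hI : ∀ j ∈ I, ∀ h, j * h ∈ I) {c : Finset B → Op W K} (hc : C.Nat K c)
    {ξ : C0 W K} (hξ : ξ ∈ cl C K I) : c C.S0 ξ ∈ cl C K I := by
  refine cl_le _ _ (Submodule.isClosed_topologicalClosure _) (fun j hj => ?_) hξ
  rw [← mul_one j, ← C.Lop_kap K subset_rfl (mem_HJ j), ← nat_Lop hc]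
  exact Lop_mem hI hj _

/-- distance less than one -/
def Near (N : Submodule K (C0 W K)) (ξ : C0 W K) : Prop := ∃ η ∈ N, ‖ξ - η‖ < 1

variable {N : Submodule K (C0 W K)}

omit [CompleteSpace K] [Algebra Rq K] [GoodK K] in
theorem Near.add {ξ ξ' : C0 W K} (h : Near N ξ) (h' : Near N ξ') : Near N (ξ + ξ') := by
  obtain ⟨η, h1, h2⟩ := h
  obtain ⟨η', h3, h4⟩ := h'
  refine ⟨η + η', add_mem h1 h3, ?_⟩
  rw [add_sub_add_comm]
  exact (IsUltrametricDist.norm_add_le_max _ _).trans_lt (max_lt h2 h4)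

omit [CompleteSpace K] [IsUltrametricDist K] [Algebra Rq K] [GoodK K] in
theorem Near.neg {ξ : C0 W K} (h : Near N ξ) : Near N (-ξ) := by
  obtain ⟨η, h1, h2⟩ := h
  exact ⟨-η, neg_mem h1, by rwa [neg_sub_neg, norm_sub_rev]⟩

omit [CompleteSpace K] [Algebra Rq K] [GoodK K] in
theorem Near.sum {ι : Type*} (s : Finset ι) (f : ι → C0 W K) (h : ∀ i ∈ s, Near N (f i)) :
    Near N (∑ i ∈ s, f i) :=
  Finset.sum_induction f (Near N) (fun _ _ => Near.add) ⟨0, zero_mem _, by simp⟩ h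

theorem pt_small {J : Finset B} (hJ : J ⊆ C.S0) (x : Lat C.n) (p : Pt (C.AJ K J 1)) :
    p.p (C.Tht K J x * C.etaL K J x 0) ≤ ‖qK K‖⁻¹ ^ ((C.Mo : ℝ)⁻¹) := by
  have hQ : 1 < ‖qK K‖ := GoodK.one_lt
  have hQi : 0 ≤ ‖qK K‖⁻¹ := inv_nonneg.2 (norm_nonneg _)
  obtain ⟨-, -, a3, -, a5⟩ := etaL_spec (K := K) hJ x 0
  rw [p.mul _ (Tht_mem _) _ a3, a5]
  split_ifs with h1
  · rw [mul_one]
    obtain ⟨j, hj⟩ := pt_int hJ s2_he p x
    rw [hj, zpow_lt_zpow_iff_right₀ hQ] at h1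
    rw [s2_pt_nsmul hJ] at hj
    refine le_of_pow_le_pow_left₀ C.Mo_pos.ne' (Real.rpow_nonneg hQi _) ?_
    rw [Real.rpow_inv_natCast_pow hQi C.Mo_pos.ne', hj, ← zpow_neg_one]
    exact zpow_le_zpow_right₀ hQ.le (by omega)
  · rw [mul_zero]
    exact Real.rpow_nonneg hQi _

theorem eta_split {x : Lat C.n} (hx : C.Dom C.S0 x) :
    C.eta K C.S0 x 0 + C.etaL K C.S0 x 0 = 1 := by
  have hQ : 1 < ‖qK K‖ := GoodK.one_lt
  obtain ⟨-, -, a3, a4, a5⟩ := etaL_spec (K := K) (subset_rfl : C.S0 ⊆ C.S0) x (0 + 1)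
  rw [eta, sub_add_cancel]
  refine (spec_AJ1 subset_rfl).idem_ext a3 (one_mem _) a4 (one_mul _) fun p => ?_
  rw [a5, p.one, if_pos]
  rw [s2_pt_nsmul subset_rfl, zero_add, zpow_one]
  exact (pow_le_one₀ (pt_pos subset_rfl s2_he p _).le (pt_dom subset_rfl s2_he p hx)).trans_lt hQ

/-- stabilisation after `|W₀|` steps -/
theorem stab (hI : ∀ j ∈ I, ∀ h, j * h ∈ I) {x : Lat C.n} (hx : C.Dom C.S0 x) (h : H)
    (ξ : C0 W K) (hb : ∀ j : ℕ, ‖C.Lop K C.S0 h ((C.Tht K C.S0 x ^ j) ξ)‖ ≤ 1)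
    (he : ∀ᶠ j : ℕ in atTop, Near (cl C K I) (C.Lop K C.S0 h ((C.Tht K C.S0 x ^ j) ξ))) :
    Near (cl C K I) (C.Lop K C.S0 h ((C.Tht K C.S0 x ^ C.Mo) ξ)) := by
  have hQ : 1 < ‖qK K‖ := GoodK.one_lt
  have hQi : 0 ≤ ‖qK K‖⁻¹ := inv_nonneg.2 (norm_nonneg _)
  have hS : C.S0 ⊆ C.S0 := subset_rfl
  have hr : ‖qK K‖⁻¹ ^ ((C.Mo : ℝ)⁻¹) < 1 :=
    Real.rpow_lt_one hQi (inv_lt_one_of_one_lt₀ hQ) (inv_pos.2 (Nat.cast_pos.2 C.Mo_pos))
  obtain ⟨-, -, a3, a4, -⟩ := etaL_spec (K := K) hS x 0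
  set T := C.Tht K C.S0 x with hT
  set e0 := C.eta K C.S0 x 0 with he0
  set e1 := C.etaL K C.S0 x 0 with he1
  have hc1 : Commute T e1 := (spec_AJ1 hS).comm _ (Tht_mem _) _ a3
  have hsp : ∀ j : ℕ, C.Lop K C.S0 h ((T ^ j) ξ) =
      C.Lop K C.S0 h ((T ^ j * e0) ξ) + C.Lop K C.S0 h ((T ^ j * e1) ξ) := fun j => by
    rw [← map_add, ← add_apply, ← mul_add, eta_split hx, mul_one]
  have h1 : Tendsto (fun j : ℕ => T ^ j * e1) atTop (𝓝 0) := by
    refine ((spec_AJ1 hS).tendsto_pow (mul_mem (Tht_mem x) a3) hr (pt_small hS x)).congr' ?_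
    filter_upwards [eventually_ge_atTop 1] with k hk
    rw [hc1.mul_pow, a4.pow_eq (by omega)]
  have h2 : Tendsto (fun j : ℕ => C.Lop K C.S0 h ((T ^ j * e1) ξ)) atTop (𝓝 0) := by
    have b1 := ((ContinuousLinearMap.apply K (C0 W K) ξ).continuous.tendsto 0).comp h1
    have b2 := ((C.Lop K C.S0 h).continuous.tendsto _).comp b1
    simpa [Function.comp_def] using b2
  have h3 : ∀ᶠ j : ℕ in atTop, Near (cl C K I) (C.Lop K C.S0 h ((T ^ j * e0) ξ)) := by
    filter_upwards [he, (tendsto_norm_zero.comp h2).eventually (gt_mem_nhds (zero_lt_one' ℝ))]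
      with j b1 b2
    rw [eq_sub_of_add_eq (hsp j).symm, sub_eq_add_neg]
    exact b1.add (Near.neg ⟨0, zero_mem _, by rw [sub_zero]; exact b2⟩)
  obtain ⟨n, hn⟩ := eventually_atTop.1 h3
  have h4 : ∀ j : ℕ, Near (cl C K I) (C.Lop K C.S0 h ((T ^ j * e0) ξ)) := fun j => by
    obtain ⟨c, hc, hrec⟩ := C.rec_eta K x 0 n
    have b := hrec 1 C.W0.one_mem _ hS
    simp only [map_one, LinearEquiv.coe_one, id_eq] at b
    rw [he0, b, Finset.mul_sum, sum_apply, map_sum]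
    refine Near.sum _ _ fun i _ => ?_
    obtain ⟨c', hna, hn1⟩ := hc i
    have e1 : T ^ j * (c i C.S0 * C.phi K C.S0 x 0 (n + i)) =
        c i C.S0 * (T ^ (j + C.Mo * (n + i)) * e0) := by
      rw [HC.phi, neg_zero, zpow_zero, one_smul, C.Tht_nsmul K hS, ← pow_mul, pow_add, ← mul_assoc,
        (Commute.pow_left (s4_comm hna.1 hS x) j).eq, mul_assoc, mul_assoc]
    rw [e1, mul_apply_eq_comp, nat_Lop hna.1]
    obtain ⟨η, b1, b2⟩ := hn (j + C.Mo * (n + i)) (by have := C.Mo_pos; nlinarith)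
    refine ⟨_, nat_mem hI hna.1 b1, ?_⟩
    rw [← map_sub]
    exact ((c i C.S0).le_opNorm _).trans_lt
      (mul_lt_one_of_nonneg_of_lt_one_right (hn1 _ hS).1 (norm_nonneg _) b2)
  rw [hsp]
  refine (h4 _).add ?_
  obtain ⟨c, hc, hc', hrec⟩ := charpoly_lt ((equiL_Tht (C := C) (K := K) x).mul (s4_etaL x 0))
    (Real.rpow_nonneg hQi _) hr fun w _ J hJ =>
      ⟨mul_mem (Tht_mem _) (etaL_spec hJ _ 0).2.2.1, pt_small hJ _⟩
  simp only [Pi.mul_apply, map_one, LinearEquiv.coe_one, id_eq] at hrec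
  have b0 : ∀ j : ℕ, (T * e1) ^ j * e1 = T ^ j * e1 := fun j => by
    have := s5_pow_mul hc1 a4 j 0
    rwa [pow_zero, one_mul, add_zero] at this
  rw [← b0, hrec, neg_mul, Finset.sum_mul, neg_apply, sum_apply, map_neg, map_sum]
  refine Near.neg (Near.sum _ _ fun i hi => ?_)
  rw [mul_assoc, b0, mul_apply_eq_comp, nat_Lop (hc i)]
  obtain ⟨η, b1, b2⟩ := h4 i
  refine ⟨_, nat_mem hI (hc i) (neg_mem b1), ?_⟩
  rw [← map_sub]
  refine ((c i C.S0).le_opNorm _).trans_lt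
    (mul_lt_one_of_nonneg_of_lt_one_left (norm_nonneg _) (hc' i (Finset.mem_range.1 hi)) ?_)
  have b3 : C.Lop K C.S0 h ((T ^ i * e1) ξ) - -η =
      C.Lop K C.S0 h ((T ^ i) ξ) + -(C.Lop K C.S0 h ((T ^ i * e0) ξ) - η) := by
    rw [hsp i]
    abel
  rw [b3]
  exact (IsUltrametricDist.norm_add_le_max _ _).trans
    (max_le (hb i) (by rw [norm_neg]; exact b2.le))

end Pool.Agent.P.MP_19ae20_al
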