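import Pool.Agent.P.MP_74db7f_al.DefsF
import Pool.Agent.P.MP_74db7f_al.DefsL

namespace Pool.Agent.P.MP_19ae20_al

universe v w

/-- `x` and `y` are joined in `K` by a path whose steps are left multiplications by simple
reflections. -/
def Joined {B : Type w} {W : Type v} [Group W] {M : CoxeterMatrix B} (cs : CoxeterSystem M W)
    (K : Set W) : W → W → Prop :=
  Relation.ReflTransGen fun x y => x ∈ K ∧ y ∈ K ∧ ∃ i, y = cs.simple i * x

end Pool.Agent.P.MP_19ae20_al
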