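import Pool.Agent.P.MP_19ae20_al.Geo

/-! Preorders on alcoves which refine the weak order and stabilise along dominant translations. -/

namespace Pool.Agent.P.MP_19ae20_al

open Pool.Agent.P.MP_74db7f_al
open scoped Classical

variable {B W : Type*} [Group W] {M : CoxeterMatrix B} {cs : CoxeterSystem M W}

/-- paths by right multiplication -/
def JR (cs : CoxeterSystem M W) (K : Set W) : W → W → Prop :=
  Relation.ReflTransGen fun x y => x ∈ K ∧ y ∈ K ∧ ∃ i, y = x * cs.simple i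

theorem JR.symm {K : Set W} {x y : W} (h : JR cs K x y) : JR cs K y x := by
  induction h with
  | refl => exact Relation.ReflTransGen.refl
  | tail _ h2 ih =>
    obtain ⟨h3, h4, i, rfl⟩ := h2
    exact Relation.ReflTransGen.head ⟨h4, h3, i, by
      rw [cs.simple_mul_simple_cancel_right]⟩ ih

theorem JR.mono {K K' : Set W} (hK : K ⊆ K') {x y : W} (h : JR cs K x y) : JR cs K' x y := by
  induction h with
  | refl => exact Relation.ReflTransGen.refl
  | tail _ h2 ih => exact Relation.ReflTransGen.tail ih ⟨hK h2.1, hK h2.2.1, h2.2.2⟩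

theorem JR.ball {K : Set W} {x y : W} (h : JR cs K x y) :
    ∃ n, JR cs {z ∈ K | cs.length z ≤ n} x y := by
  induction h with
  | refl => exact ⟨0, Relation.ReflTransGen.refl⟩
  | @tail p q _ h2 ih =>
    obtain ⟨n, hn⟩ := ih
    have h3 : JR cs {z ∈ K | cs.length z ≤ n + cs.length p + cs.length q} x p :=
      JR.mono (fun z hz => And.intro hz.1 (Nat.le_trans hz.2 (by omega))) hn
    exact ⟨n + cs.length p + cs.length q, Relation.ReflTransGen.tail h3
      ⟨⟨h2.1, by omega⟩, ⟨h2.2.1, by omega⟩, h2.2.2⟩⟩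

/-- the properties of the cell preorder that are used -/
structure Pre (D : AD cs) (le : W → W → Prop) : Prop where
  refl : ∀ x, le x x
  trans : ∀ {x y z}, le x y → le y z → le x z
  weak : ∀ w i, cs.length w < cs.length (w * cs.simple i) → le (w * cs.simple i) w
  stab : ∀ u ∈ D.W0, ∀ g x, D.ADom D.S0 g → D.Dom D.S0 x → ∀ y,
    (∀ᶠ j : ℕ in Filter.atTop, le (u * (D.tr ((j : ℤ) • x) * g)) y) →
      le (u * (D.tr ((D.Mo : ℤ) • x) * g)) y

variable {D : AD cs} {le : W → W → Prop} (P : Pre D le)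
include P

theorem Pre.weak_mul (a x : W) (h : cs.length (x * a) = cs.length x + cs.length a) :
    le (x * a) x := by
  induction a using len_induction cs with
  | h1 => rw [mul_one]; exact P.refl x
  | h2 a i ha ih =>
    have h1 := cs.length_mul_le x a
    have h2 := cs.length_mul_simple (x * a) i
    rw [← mul_assoc] at h ⊢
    exact P.trans (P.weak _ i (by omega)) (ih (by omega))

theorem Pre.btw {x y : W} (h : Btw D x y) : le y x := by
  have := P.weak_mul _ _ h.len
  rwa [mul_inv_cancel_left] at this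

theorem Pre.path {c : W} (a x : W) (h : cs.length (x * a) = cs.length x + cs.length a)
    (h1 : le x c) (h2 : le c (x * a)) {n : ℕ} (hn : cs.length (x * a) ≤ n) :
    JR cs {z ∈ {z | le z c ∧ le c z} | cs.length z ≤ n} x (x * a) := by
  induction a using len_induction cs with
  | h1 => rw [mul_one]; exact Relation.ReflTransGen.refl
  | h2 a i ha ih =>
    have h3 := cs.length_mul_le x a
    have h4 := cs.length_mul_simple (x * a) i
    rw [← mul_assoc] at h h2 hn ⊢
    have h5 := P.weak (x * a) i (by omega)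
    have h6 := P.trans (P.weak_mul a x (by omega)) h1
    exact Relation.ReflTransGen.tail (ih (by omega) (P.trans h2 h5) (by omega))
      ⟨⟨⟨h6, P.trans h2 h5⟩, by omega⟩, ⟨⟨P.trans h5 h6, h2⟩, hn⟩, i, rfl⟩

omit P in
theorem back_btw {ν : Lat D.n} {w : W} (h : Deep D ν 1 w) : Btw D (D.tr (-ν) * w) w := by
  have h1 := h.tr (-1)
  rw [add_neg_cancel, neg_one_smul] at h1
  have h2 := h1.btw zero_le_one
  rwa [one_smul, ← mul_assoc, ← D.tr_add, add_neg_cancel, D.tr_zero, one_mul] at h2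

theorem Pre.back {ν : Lat D.n} {w : W} (h : Deep D ν (D.Mo + 1) w) : le (D.tr (-ν) * w) w := by
  obtain ⟨u, hu, g, x, hg, hx, e⟩ := h.normal (by positivity)
  have h1 := P.stab u hu g x hg hx w (by
    filter_upwards [Filter.eventually_ge_atTop (D.Mo + 1)] with j hj
    rw [e]
    exact P.btw ((h.mono (by positivity)).btw (by omega)))
  rwa [e, sub_add_cancel_left, neg_one_smul] at h1

omit P in
theorem back_lt {ν : Lat D.n} {w : W} (h : Deep D ν 1 w) {γ : Du D.n} (h0 : 0 < γ ν) :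
    cs.length (D.tr (-ν) * w) < cs.length w := by
  have h1 := (back_btw h).len
  rw [mul_inv_cancel_left] at h1
  have h2 : cs.length ((D.tr (-ν) * w)⁻¹ * w) ≠ 0 := fun e => by
    rw [cs.length_eq_zero_iff, inv_mul_eq_one, mul_eq_right, ← D.tr_zero] at e
    rw [neg_eq_zero.1 (D.tr_injective e), map_zero] at h0
    exact lt_irrefl _ h0
  omega

theorem Pre.back_path {ν : Lat D.n} {w c : W} (h : Deep D ν (D.Mo + 1) w) (h1 : le w c)
    (h2 : le c w) {n : ℕ} (hn : cs.length w ≤ n) :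
    JR cs {z ∈ {z | le z c ∧ le c z} | cs.length z ≤ n} (D.tr (-ν) * w) w := by
  have h3 := (back_btw (h.mono (by omega))).len
  have := P.path (c := c) _ _ h3 (P.trans (P.back h) h1) (by rwa [mul_inv_cancel_left])
    (n := n) (by rwa [mul_inv_cancel_left])
  rwa [mul_inv_cancel_left] at this

theorem Pre.far0 {w : W} {i : B} {γ : Du D.n} (hγ : γ ∈ D.R) (e : D.pb w γ = D.sr i)
    (h : 2 * (D.Mo + 1 : ℕ) * D.S0.card * D.Mo < D.mu w γ) :
    le w (w * cs.simple i) ∧ le (w * cs.simple i) w := by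
  obtain ⟨ν, h0, hd⟩ := exists_deep D (D.Mo + 1) w hγ h
  have h1 : (0 : ℤ) ≤ 2 * (D.Mo + 1 : ℕ) * D.S0.card * D.Mo := by positivity
  have h2 : cs.length (w * cs.simple i) < cs.length w := by
    have a := D.asc' w i γ hγ e
    have b := D.mu_one γ hγ
    have c := cs.length_mul_simple w i
    omega
  have h3 := P.weak (w * cs.simple i) i (by rwa [cs.simple_mul_simple_cancel_right])
  rw [cs.simple_mul_simple_cancel_right] at h3
  push_cast at hd
  refine ⟨h3, P.trans (P.btw fun δ hδ => ?_) (P.back hd)⟩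
  have a := D.mu_one δ hδ
  have b := mu_step_abs D w i hδ
  have hd1 := hd.mono (show (1 : ℤ) ≤ D.Mo + 1 by omega)
  rw [D.mu_tr _ _ δ hδ, map_neg]
  rcases lt_trichotomy (δ ν) 0 with c | c | c
  · have := hd1.neg hδ c
    omega
  · have f : ∀ δ', D.pb w δ = D.pb w δ' → δ = δ' := fun δ' f => by
      rw [← D.pb_inv_pb w δ, f, D.pb_inv_pb]
    have := D.mu_step_ne (w := w) (i := i) hδ
      (fun f1 => by
        rw [f γ (f1.trans e.symm)] at c
        omega)
      (fun f1 => by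
        rw [f (-γ) (by rw [D.pb_neg, e, f1]), LinearMap.neg_apply] at c
        omega)
    omega
  · have := hd1 δ hδ c
    omega

variable {b : ℕ} {r N : ℕ} (hr : D.S0.card ≤ r) (hN : D.Mo ≤ N) (hb : 17 * r * N ^ 3 ≤ b)
include hr hN hb

/-- far walls do not separate cells -/
theorem Pre.far (hr1 : 1 ≤ r) {w : W} {i : B} (h : b < cs.length (w * cs.simple i * w⁻¹)) :
    le w (w * cs.simple i) ∧ le (w * cs.simple i) w := by
  have hγ := D.pb_mem w⁻¹ (D.sr_mem i)
  have e := D.pb_pb_inv w (D.sr i)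
  generalize D.pb w⁻¹ (D.sr i) = γ at hγ e
  have h1 := length_refl D hγ e
  have hM := D.Mo_pos
  have h2 : D.Mo * (1 + 4 * (2 * (D.Mo + 1) * D.S0.card * D.Mo)) ≤ b := by
    refine le_trans ?_ hb
    have a1 : 2 * (D.Mo + 1) * D.S0.card * D.Mo ≤ 2 * (N + N) * r * N := by gcongr; omega
    have a2 : 1 ≤ r * N ^ 2 := Nat.mul_pos hr1 (pow_pos (by omega) _)
    calc D.Mo * (1 + 4 * (2 * (D.Mo + 1) * D.S0.card * D.Mo))
        ≤ N * (r * N ^ 2 + 4 * (2 * (N + N) * r * N)) := by gcongr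
      _ = 17 * r * N ^ 3 := by ring
  have h3 : (2 * (D.Mo + 1 : ℕ) * D.S0.card * D.Mo : ℤ) < |D.mu w γ| := by
    by_contra a
    have a1 : (D.Mo : ℤ) * (1 + 4 * |D.mu w γ|) ≤
        D.Mo * (1 + 4 * (2 * (D.Mo + 1 : ℕ) * D.S0.card * D.Mo)) := by
      have := not_lt.1 a
      gcongr
    have a2 : (D.Mo : ℤ) * (1 + 4 * (2 * (D.Mo + 1 : ℕ) * D.S0.card * D.Mo)) ≤ b := by
      exact_mod_cast h2
    omega
  rcases lt_abs.1 h3 with a | a
  · exact P.far0 hγ e a
  · have := P.far0 (w := w * cs.simple i) (i := i) (D.neg_mem γ hγ)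
      (by rw [D.pb_neg, D.pb_mul, e, D.pb_simple_sr, neg_neg])
      (by rw [D.mu_neg _ γ hγ, D.mu_step hγ e]; omega)
    rw [cs.simple_mul_simple_cancel_right] at this
    exact this.symm

omit P in
theorem deep_of_long [Fintype B] (hr0 : Fintype.card B ≤ r) {w : W} (h : b < cs.length w) :
    ∃ ν, (∃ γ : Du D.n, 0 < γ ν) ∧ Deep D ν (D.Mo + 1 + 1) w := by
  have hM := D.Mo_pos
  have hr1 : 1 ≤ r := by
    obtain ⟨i, -⟩ := cs.exists_rightDescent_of_ne_one (w := w) fun e => by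
      rw [e, cs.length_one] at h
      omega
    exact (Fintype.card_pos_iff.2 ⟨i⟩).trans_le hr0
  have h2 : D.Mo * (2 * (D.Mo + 2) * D.S0.card * D.Mo + 1) ≤ b := by
    refine le_trans ?_ hb
    have a1 : 2 * (D.Mo + 2) * D.S0.card * D.Mo ≤ 2 * (3 * N) * r * N := by gcongr; omega
    have a2 : 1 ≤ r * N ^ 2 := Nat.mul_pos hr1 (pow_pos (by omega) _)
    calc D.Mo * (2 * (D.Mo + 2) * D.S0.card * D.Mo + 1)
        ≤ N * (2 * (3 * N) * r * N + r * N ^ 2) := by gcongr
      _ = 7 * (r * N ^ 3) := by ring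
      _ ≤ 17 * (r * N ^ 3) := by omega
      _ = 17 * r * N ^ 3 := by ring
  obtain ⟨γ, hγ, h3⟩ := exists_far D (h2.trans_lt h)
  obtain ⟨ν, h0, hd⟩ := exists_deep D (D.Mo + 2) w hγ (by exact_mod_cast h3)
  exact ⟨ν, ⟨γ, h0⟩, hd.mono (by push_cast; omega)⟩

omit hr hN hb in
theorem Pre.desc0 {ν : Lat D.n} {w : W} (hd : Deep D ν (D.Mo + 1) w) {γ : Du D.n}
    (h0 : 0 < γ ν) : ∃ i, cs.length (w * cs.simple i) < cs.length w ∧
      le w (w * cs.simple i) ∧ le (w * cs.simple i) w := by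
  have hd1 := hd.mono (show (1 : ℤ) ≤ D.Mo + 1 by omega)
  have h1 := (back_btw hd1).len
  have h2 := back_lt hd1 h0
  have h3 := P.back hd
  generalize D.tr (-ν) * w = x at h1 h2 h3
  obtain ⟨a, rfl⟩ : ∃ a, w = x * a := ⟨x⁻¹ * w, by rw [mul_inv_cancel_left]⟩
  rw [inv_mul_cancel_left] at h1
  obtain ⟨i, hi⟩ := cs.exists_rightDescent_of_ne_one (w := a) fun e => by
    rw [e, mul_one] at h2
    omega
  have h4 : cs.length (a * cs.simple i) < cs.length a := hi
  have h5 := cs.length_mul_le x (a * cs.simple i)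
  have h6 := cs.length_mul_simple (x * a) i
  have h7 := cs.length_mul_simple a i
  rw [← mul_assoc] at h5
  have h8 := P.weak (x * a * cs.simple i) i (by rw [cs.simple_mul_simple_cancel_right]; omega)
  rw [cs.simple_mul_simple_cancel_right] at h8
  refine ⟨i, by omega, h8, P.trans ?_ h3⟩
  rw [mul_assoc]
  exact P.weak_mul _ _ (by rw [← mul_assoc]; omega)

variable [Fintype B] (hr0 : Fintype.card B ≤ r)
include hr0

theorem Pre.desc {w : W} (h : b < cs.length w) : ∃ i, cs.length (w * cs.simple i) < cs.length w ∧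
    le w (w * cs.simple i) ∧ le (w * cs.simple i) w := by
  obtain ⟨ν, ⟨γ, h0⟩, hd⟩ := deep_of_long hr hN hb hr0 h
  exact P.desc0 (hd.mono (by omega)) h0

theorem Pre.infinite {w c : W} (h : b < cs.length w) (h1 : le w c) (h2 : le c w) :
    {y | JR cs {z | le z c ∧ le c z} w y}.Infinite := by
  obtain ⟨ν, ⟨γ, h0⟩, hd⟩ := deep_of_long hr hN hb hr0 h
  have key : ∀ j : ℕ, (le (D.tr ((j : ℤ) • ν) * w) c ∧ le c (D.tr ((j : ℤ) • ν) * w)) ∧
      JR cs {z | le z c ∧ le c z} w (D.tr ((j : ℤ) • ν) * w) := fun j => by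
    induction j with
    | zero =>
      rw [Nat.cast_zero, zero_smul, D.tr_zero, one_mul]
      exact ⟨⟨h1, h2⟩, Relation.ReflTransGen.refl⟩
    | succ j ih =>
      have a : Deep D ν (D.Mo + 1) (D.tr (((j + 1 : ℕ) : ℤ) • ν) * w) :=
        (hd.tr _).mono (by omega)
      have e : D.tr (-ν) * (D.tr (((j + 1 : ℕ) : ℤ) • ν) * w) = D.tr ((j : ℤ) • ν) * w := by
        rw [← mul_assoc, ← D.tr_add, Nat.cast_succ, add_smul, one_smul, neg_add_cancel_comm_assoc]
      have a1 := P.back a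
      have a2 := P.btw (back_btw (a.mono (by omega)))
      rw [e] at a1 a2
      have a3 := P.back_path a (P.trans a2 ih.1.1) (P.trans ih.1.2 a1) le_rfl
      rw [e] at a3
      exact ⟨⟨P.trans a2 ih.1.1, P.trans ih.1.2 a1⟩,
        Relation.ReflTransGen.trans ih.2 (a3.mono fun z hz => hz.1)⟩
  refine Set.infinite_of_injective_forall_mem (f := fun j : ℕ => D.tr ((j : ℤ) • ν) * w)
    (fun j k e => ?_) fun j => (key j).2
  have e1 := congrArg γ (D.tr_injective (mul_right_cancel e))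
  rw [map_zsmul, map_zsmul, smul_eq_mul, smul_eq_mul] at e1
  exact_mod_cast mul_right_cancel₀ h0.ne' e1

theorem Pre.link {z c : W} {n : ℕ} (h : b < cs.length z) {i j : B}
    (hi : z * cs.simple i ∈ {z ∈ {z | le z c ∧ le c z} | cs.length z ≤ n})
    (hj : z * cs.simple j ∈ {z ∈ {z | le z c ∧ le c z} | cs.length z ≤ n})
    (h1 : le z c) (h2 : le c z) (hz : cs.length z ≤ n + 1) :
    JR cs {z ∈ {z | le z c ∧ le c z} | cs.length z ≤ n} (z * cs.simple i) (z * cs.simple j) := by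
  obtain ⟨ν, ⟨γ, h0⟩, hd⟩ := deep_of_long hr hN hb hr0 h
  have hd1 : Deep D ν 1 z := hd.mono (by omega)
  have hz0 : D.tr (-ν) * z ∈ {z ∈ {z | le z c ∧ le c z} | cs.length z ≤ n} :=
    ⟨⟨P.trans (P.back (hd.mono (by omega))) h1, P.trans h2 (P.btw (back_btw hd1))⟩, by
      have := back_lt hd1 h0
      omega⟩
  have key : ∀ i, z * cs.simple i ∈ {z ∈ {z | le z c ∧ le c z} | cs.length z ≤ n} →
      JR cs {z ∈ {z | le z c ∧ le c z} | cs.length z ≤ n} (D.tr (-ν) * z) (z * cs.simple i) :=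
    fun i hi => by
      have a := hd.step i
      have a1 : Deep D ν 1 (z * cs.simple i) := a.mono (by omega)
      exact Relation.ReflTransGen.head ⟨hz0, ⟨⟨P.trans (P.back a) hi.1.1,
        P.trans hi.1.2 (P.btw (back_btw a1))⟩, (back_lt a1 h0).le.trans hi.2⟩, i,
          (mul_assoc _ _ _).symm⟩ (P.back_path a hi.1.1 hi.1.2 hi.2)
  exact Relation.ReflTransGen.trans (key i hi).symm (key j hj)

theorem Pre.shrink {c x y : W} {n : ℕ} (hn : b ≤ n) (hx : cs.length x ≤ n)
    (hy : cs.length y ≤ n)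
    (h : JR cs {z ∈ {z | le z c ∧ le c z} | cs.length z ≤ n + 1} x y) :
    JR cs {z ∈ {z | le z c ∧ le c z} | cs.length z ≤ n} x y := by
  have key : ∀ y, JR cs {z ∈ {z | le z c ∧ le c z} | cs.length z ≤ n + 1} x y →
      (cs.length y ≤ n → JR cs {z ∈ {z | le z c ∧ le c z} | cs.length z ≤ n} x y) ∧
      (n < cs.length y → ∃ i, y * cs.simple i ∈ {z ∈ {z | le z c ∧ le c z} | cs.length z ≤ n} ∧
        JR cs {z ∈ {z | le z c ∧ le c z} | cs.length z ≤ n} x (y * cs.simple i)) := by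
    intro y h
    induction h with
    | refl => exact ⟨fun _ => Relation.ReflTransGen.refl, fun a => absurd hx (not_le.2 a)⟩
    | @tail p q _ h2 ih =>
      obtain ⟨hp, hq, i, rfl⟩ := h2
      have hl := cs.length_mul_simple p i
      have hq2 := hq.2
      by_cases a : cs.length p ≤ n
      · refine ⟨fun a1 => Relation.ReflTransGen.tail (ih.1 a) ⟨⟨hp.1, a⟩, ⟨hq.1, a1⟩, i, rfl⟩,
          fun _ => ⟨i, ?_⟩⟩
        rw [cs.simple_mul_simple_cancel_right]
        exact ⟨⟨hp.1, a⟩, ih.1 a⟩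
      · have hp2 := hp.2
        refine ⟨fun a1 => ?_, fun a1 => by omega⟩
        obtain ⟨j, b1, b2⟩ := ih.2 (not_le.1 a)
        exact Relation.ReflTransGen.trans b2
          (P.link hr hN hb hr0 (by omega) b1 ⟨hq.1, a1⟩ hp.1.1 hp.1.2 hp2)
  exact (key y h).1 hy

theorem Pre.to_ball {c x y : W} (hx : cs.length x ≤ b) (hy : cs.length y ≤ b)
    (h : JR cs {z | le z c ∧ le c z} x y) :
    JR cs {z ∈ {z | le z c ∧ le c z} | cs.length z ≤ b} x y := by
  obtain ⟨n, hn⟩ := h.ball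
  have h1 : JR cs {z ∈ {z | le z c ∧ le c z} | cs.length z ≤ b + n} x y :=
    JR.mono (fun z hz => And.intro hz.1 (Nat.le_trans hz.2 (by omega))) hn
  clear hn
  induction n with
  | zero => exact h1
  | succ n ih => exact ih (P.shrink hr hN hb hr0 (by omega) (by omega) (by omega) h1)

theorem Pre.retract {c : W} (x : W) (h1 : le x c) (h2 : le c x) :
    ∃ y, (le y c ∧ le c y) ∧ cs.length y ≤ b ∧ JR cs {z | le z c ∧ le c z} x y := by
  generalize hn : cs.length x = n
  induction n using Nat.strong_induction_on generalizing x with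
  | _ n ih =>
    by_cases a : cs.length x ≤ b
    · exact ⟨x, ⟨h1, h2⟩, a, Relation.ReflTransGen.refl⟩
    · obtain ⟨i, b1, b2, b3⟩ := P.desc hr hN hb hr0 (not_le.1 a)
      obtain ⟨y, c1, c2, c3⟩ := ih _ (hn ▸ b1) _ (P.trans b3 h1) (P.trans h2 b2) rfl
      exact ⟨y, c1, c2, Relation.ReflTransGen.head
        ⟨⟨h1, h2⟩, ⟨P.trans b3 h1, P.trans h2 b2⟩, i, rfl⟩ c3⟩

omit hb hr0 [Fintype B] in
theorem Pre.count : ∃ F : Finset W, F.card ≤ N * (11 * r * N ^ 2) ^ r ∧
    ∀ c x, le x c → le c x → ∃ y ∈ F, JR cs {z | le z c ∧ le c z} x y := by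
  obtain ⟨F, hF, hF'⟩ := card_box D (2 * (D.Mo + 1) * D.S0.card * D.Mo)
  have hM := D.Mo_pos
  refine ⟨F, hF.trans (Nat.mul_le_mul hN ?_), fun c x h1 h2 => ?_⟩
  · rcases Nat.eq_zero_or_pos r with a | a
    · rw [a] at hr ⊢
      rw [Nat.le_zero.1 hr, pow_zero, pow_zero]
    · have a1 : 2 * (D.Mo + 1) * D.S0.card * D.Mo ≤ 2 * (N + N) * r * N := by gcongr; omega
      have a2 : 1 ≤ r * N ^ 2 := Nat.mul_pos a (pow_pos (by omega) _)
      have a3 : 2 * (2 * (D.Mo + 1) * D.S0.card * D.Mo) + 3 ≤ 11 * r * N ^ 2 :=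
        calc 2 * (2 * (D.Mo + 1) * D.S0.card * D.Mo) + 3
            ≤ 2 * (2 * (N + N) * r * N) + 3 * (r * N ^ 2) := by omega
          _ = 11 * r * N ^ 2 := by ring
      exact (Nat.pow_le_pow_left a3 _).trans (Nat.pow_le_pow_right (by omega) hr)
  · generalize hn : cs.length x = n
    induction n using Nat.strong_induction_on generalizing x with
    | _ n ih =>
      by_cases a : x ∈ F
      · exact ⟨x, a, Relation.ReflTransGen.refl⟩
      · obtain ⟨γ, hγ, a1⟩ : ∃ γ ∈ D.R,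
            ((2 * (D.Mo + 1) * D.S0.card * D.Mo : ℕ) : ℤ) < D.mu x γ := by
          by_contra a1
          exact a (hF' x fun γ hγ => not_lt.1 fun a2 => a1 ⟨γ, hγ, a2⟩)
        obtain ⟨ν, h0, hd⟩ := exists_deep D (D.Mo + 1) x hγ (by exact_mod_cast a1)
        obtain ⟨i, b1, b2, b3⟩ := P.desc0 (hd.mono (by push_cast; omega)) h0
        obtain ⟨y, c1, c3⟩ := ih _ (hn ▸ b1) _ (P.trans b3 h1) (P.trans h2 b2) rfl
        exact ⟨y, c1, Relation.ReflTransGen.head
          ⟨⟨h1, h2⟩, ⟨P.trans b3 h1, P.trans h2 b2⟩, i, rfl⟩ c3⟩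

end Pool.Agent.P.MP_19ae20_al
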