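import Pool.Agent.P.MP_19ae20_al.Ana
import Pool.Agent.P.MP_19ae20_al.Ord
import Pool.Agent.P.MP_19ae20_al.Defs
import Pool.Agent.P.MP_74db7f_al.F.K1

/-! The left cell preorder stabilises along dominant translations. -/

namespace Pool.Agent.P.MP_19ae20_al

open Pool.Agent.P.MP_74db7f_al Pool.Agent.P.MP_74db7f_al.HC
open scoped Classical Topology
open Filter

variable {B W H : Type*} [Group W] {M : CoxeterMatrix B} {cs : CoxeterSystem M W} [Ring H]
  [Algebra Rq H] (C : HC cs H) {bar : H →+* H} {Cb : Module.Basis W Rq H}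

theorem repr_low (b b' : Module.Basis W Rq H) (f : H →ₗ[Rq] H) {z : W} {h : H}
    (hf : ∀ y, b.repr h y ≠ 0 → b'.repr (f (b y)) z = 0) : b'.repr (f h) z = 0 := by
  conv_lhs => rw [← b.linearCombination_repr h]
  rw [Finsupp.linearCombination_apply, Finsupp.sum, map_sum, map_sum, Finsupp.finsetSum_apply]
  refine Finset.sum_eq_zero fun y hy => ?_
  rw [map_smul, map_smul, Finsupp.smul_apply, hf y (Finsupp.mem_support_iff.1 hy), smul_zero]

theorem T_tri (hC : IsKL cs C.Tb bar Cb) (x z : W) (h : cs.length x ≤ cs.length z) :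
    Cb.repr (C.Tb x) z = if z = x then 1 else 0 := by
  generalize hn : cs.length x = n
  induction n using Nat.strong_induction_on generalizing x with
  | _ n ih =>
    have h1 : Cb.repr (Cb x - C.Tb x) z = 0 :=
      repr_low C.Tb Cb LinearMap.id fun y hy => by
        have a := ((hC x).2 y _ rfl).1 hy
        rw [LinearMap.id_apply, ih _ (hn ▸ a) y (by omega) rfl, if_neg]
        rintro rfl
        omega
    rw [map_sub, Finsupp.sub_apply, sub_eq_zero, Cb.repr_self, Finsupp.single_apply] at h1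
    rw [← h1]
    exact if_congr eq_comm rfl rfl

theorem leL_weak (hC : IsKL cs C.Tb bar Cb) (x : W) (i : B)
    (h : cs.length x < cs.length (cs.simple i * x)) : LeL Cb (cs.simple i * x) x := by
  refine Relation.ReflTransGen.single ⟨C.Ts i, ?_⟩
  have h1 : Cb.repr (C.Ts i * (Cb x - C.Tb x)) (cs.simple i * x) = 0 :=
    repr_low C.Tb Cb (LinearMap.mulLeft Rq (C.Ts i)) fun y hy => by
      have a := ((hC x).2 y _ rfl).1 hy
      have b := cs.length_simple_mul y i
      have c : Cb.repr (C.Tb (cs.simple i * y)) (cs.simple i * x) = 0 := by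
        rw [T_tri C hC _ _ (by omega), if_neg]
        intro e
        rw [e] at h
        omega
      have d : Cb.repr (C.Tb y) (cs.simple i * x) = 0 := by
        rw [T_tri C hC _ _ (by omega), if_neg]
        intro e
        rw [e] at h
        omega
      rw [LinearMap.mulLeft_apply, C.Ts_mul_Tb]
      split_ifs
      · exact c
      · rw [map_add, map_smul, Finsupp.add_apply, Finsupp.smul_apply, c, d, smul_zero, add_zero]
  rw [mul_sub, map_sub, Finsupp.sub_apply, sub_eq_zero, C.Ts_mul_Tb, if_pos h,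
    T_tri C hC _ _ le_rfl, if_pos rfl] at h1
  rw [h1]
  exact one_ne_zero

variable (Cb) in
/-- the right ideal attached to `y` -/
def idl (y : W) : Set H := {j | ∀ z, ¬ LeL Cb z y → Cb.repr (C.flat j) z = 0}

theorem idl_mul (y : W) : ∀ j ∈ idl C Cb y, ∀ h, j * h ∈ idl C Cb y := fun j hj h z hz => by
  rw [C.flat_mul]
  refine repr_low Cb Cb (LinearMap.mulLeft Rq (C.flat h)) fun x hx => ?_
  by_contra a
  refine hz (Relation.ReflTransGen.head ⟨C.flat h, a⟩ ?_)
  by_contra b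
  exact hx (hj x b)

variable {K : Type*} [NontriviallyNormedField K] [CompleteSpace K]
  [IsUltrametricDist K] [Algebra Rq K] [GoodK K]

theorem kap_Tb (w : W) : C.kap K C.S0 (C.Tb w) = C0.sg w := by
  rw [← C.TJ_S0, kap_TJ]

theorem near_iff (hC : IsKL cs C.Tb bar Cb) (y w : W) :
    Near (cl C K (idl C Cb y)) (C0.sg w) ↔ LeL Cb w⁻¹ y := by
  have hQ : 1 < ‖qK K‖ := GoodK.one_lt
  constructor
  · rintro ⟨η, h1, h2⟩
    by_contra hc
    have hb : ∀ z : W, ‖algebraMap Rq K (Cb.repr (C.Tb z⁻¹) w⁻¹)‖ ≤ 1 := fun z => by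
      have := (GoodK.deg (K := K) _ 0).2 (hC.T_mem z⁻¹ w⁻¹)
      rwa [zpow_zero] at this
    let φ : C0 W K →L[K] K := C0.lift fun z => algebraMap Rq K (Cb.repr (C.Tb z⁻¹) w⁻¹)
    have hφ : ∀ z, φ (C0.sg z) = algebraMap Rq K (Cb.repr (C.Tb z⁻¹) w⁻¹) :=
      C0.lift_sg ⟨1, hb⟩
    have hn : ‖φ‖ ≤ 1 := C0.opNorm_le zero_le_one fun z => by rw [hφ]; exact hb z
    have hk : ∀ h, φ (C.kap K C.S0 h) = algebraMap Rq K (Cb.repr (C.flat h) w⁻¹) := fun h => by
      have e : (φ.toLinearMap.restrictScalars Rq) ∘ₗ C.kap K C.S0 =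
          (Algebra.linearMap Rq K) ∘ₗ (Cb.coord w⁻¹) ∘ₗ C.flat := C.Tb.ext fun z => by
        show φ (C.kap K C.S0 (C.Tb z)) = algebraMap Rq K (Cb.repr (C.flat (C.Tb z)) w⁻¹)
        rw [kap_Tb, hφ, C.flat_Tb]
      exact LinearMap.congr_fun e h
    have h0 : φ η = 0 := by
      have : cl C K (idl C Cb y) ≤ LinearMap.ker (φ : C0 W K →ₗ[K] K) :=
        Submodule.topologicalClosure_minimal _
          (Submodule.span_le.2 (by
            rintro _ ⟨j, hj, rfl⟩
            show φ (C.kap K C.S0 j) = 0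
            rw [hk, hj _ hc, map_zero])) φ.isClosed_ker
      exact this h1
    have h3 := φ.le_opNorm (C0.sg w - η)
    rw [map_sub, h0, sub_zero, hφ, T_tri C hC _ _ le_rfl, if_pos rfl,
      map_one, norm_one] at h3
    exact absurd (h3.trans_lt (mul_lt_one_of_nonneg_of_lt_one_right hn (norm_nonneg _) h2))
      (lt_irrefl _)
  · intro h
    refine ⟨_, mem_cl (j := C.flat (Cb w⁻¹)) fun z hz => ?_, ?_⟩
    · rw [C.flat_flat, Cb.repr_self, Finsupp.single_apply, if_neg]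
      rintro rfl
      exact hz h
    · rw [norm_sub_rev, ← kap_Tb C, ← map_sub]
      have h1 : C.flat (Cb w⁻¹) - C.Tb w ∈ Dg (C.bJ C.S0) (-1 + 0) := by
        rw [C.bJ_S0, ← inv_inv w, ← C.flat_Tb, inv_inv, ← map_sub]
        exact map_mem_Dg C.flat (hC.diff _) fun z _ => by
          rw [C.flat_Tb]
          exact basis_mem_Dg _ _
      refine ((C.norm_kap_le K _ _ _).2 h1).trans_lt ?_
      rw [add_zero, zpow_neg_one]
      exact inv_lt_one_of_one_lt₀ hQ

theorem orbit_eq {u : W} (hu : u ∈ C.W0) {g : W} {x : Lat C.n} (hg : C.ADom C.S0 g)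
    (hx : C.Dom C.S0 x) (j : ℕ) :
    C.Lop K C.S0 (C.Tb u) ((C.Tht K C.S0 x ^ j) (C.kap K C.S0 (C.Tb g))) =
      C0.sg (u * (C.tr ((j : ℤ) • x) * g)) := by
  have hS : C.S0 ⊆ C.S0 := subset_rfl
  have h1 : C.ADom C.S0 (C.tr ((j : ℤ) • x) * g) := C.adom_tr (fun i hi => by
    rw [map_zsmul, smul_eq_mul]
    exact mul_nonneg (Int.natCast_nonneg j) (hx i hi)) hg
  rw [← C.Tht_nsmul K hS, Tht, C.Lop_kap K hS (mem_HJ _), C.Lop_kap K hS (mem_HJ _),
    ← C.TJ_S0 g, C.TJ_cmp (Finset.empty_subset _) hS hg, C.th_mul_TJ_empty,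
    ← C.TJ_cmp (Finset.empty_subset _) hS h1,
    C.Tb_mul_TJ hS hu (C.lenJ_add hS hu fun γ hγ _ => adom_pos C.toAD h1 hγ), kap_TJ]

omit [CompleteSpace K] [IsUltrametricDist K] [Algebra Rq K] [GoodK K] in
theorem pre (hC : IsKL cs C.Tb bar Cb) : Pre C.toAD fun x y => LeL Cb x⁻¹ y⁻¹ where
  refl := fun _ => Relation.ReflTransGen.refl
  trans := fun h h' => Relation.ReflTransGen.trans h h'
  weak := fun w i h => by
    rw [mul_inv_rev, cs.inv_simple]
    refine leL_weak C hC _ i ?_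
    rwa [cs.length_inv, ← cs.length_inv (cs.simple i * w⁻¹), mul_inv_rev, inv_inv, cs.inv_simple]
  stab := fun u hu g x hg hx y h => by
    obtain ⟨K, _, _, _, _, _⟩ := exists_goodK
    rw [← near_iff (K := K) C hC, ← orbit_eq C hu hg hx]
    refine stab (idl_mul C _) hx _ _ (fun j => ?_) ?_
    · rw [orbit_eq C hu hg hx, C0.norm_sg]
    · filter_upwards [h] with j hj
      rwa [orbit_eq C hu hg hx, near_iff C hC]

theorem JR.joined {K K' : Set W} (hK : ∀ z, z ∈ K → z⁻¹ ∈ K') {x y : W} (h : JR cs K x y) :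
    Joined cs K' x⁻¹ y⁻¹ := by
  induction h with
  | refl => exact Relation.ReflTransGen.refl
  | tail _ h2 ih =>
    obtain ⟨h3, h4, i, e⟩ := h2
    exact Relation.ReflTransGen.tail ih ⟨hK _ h3, hK _ h4, i, by
      rw [e, mul_inv_rev, cs.inv_simple]⟩

theorem Joined.jr {K K' : Set W} (hK : ∀ z, z ∈ K → z⁻¹ ∈ K') {x y : W} (h : Joined cs K x y) :
    JR cs K' x⁻¹ y⁻¹ := by
  induction h with
  | refl => exact Relation.ReflTransGen.refl
  | tail _ h2 ih =>
    obtain ⟨h3, h4, i, e⟩ := h2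
    exact Relation.ReflTransGen.tail ih ⟨hK _ h3, hK _ h4, i, by
      rw [e, mul_inv_rev, cs.inv_simple]⟩

theorem Mo_le {N : ℕ}
    (hN : ∀ J : Set B, Nat.card (Subgroup.closure (cs.simple '' J)) ≤ N) : C.Mo ≤ N := by
  refine le_of_eq_of_le ?_ (hN (C.S0 : Set B))
  rw [AD.Mo, ← Fintype.card_coe, ← Nat.card_eq_fintype_card]
  exact Nat.card_congr (Equiv.subtypeEquivRight fun u => C.mem_WF subset_rfl)

variable [Fintype B] (hC : IsKL cs C.Tb bar Cb) {N b : ℕ}
  (hN : ∀ J : Set B, Nat.card (Subgroup.closure (cs.simple '' J)) ≤ N)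
include hC hN

theorem far_main (hb : 17 * Fintype.card B * N ^ 3 ≤ b) (x : W) (i : B)
    (h : b < cs.length (x⁻¹ * cs.simple i * x)) :
    LeL Cb x (cs.simple i * x) ∧ LeL Cb (cs.simple i * x) x := by
  have := (pre C hC).far (Finset.card_le_univ _) (Mo_le C hN) hb (Fintype.card_pos_iff.2 ⟨i⟩)
    (w := x⁻¹) (i := i) (by rwa [inv_inv])
  rwa [mul_inv_rev, inv_inv, cs.inv_simple] at this

theorem ball_main (hb : 17 * Fintype.card B * N ^ 3 ≤ b) {Γ : Set W} (hΓ : IsLeftCell Cb Γ) :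
    (∀ x ∈ Γ, ∃ y ∈ Γ, cs.length y ≤ b ∧ Joined cs Γ x y) ∧
    ∀ x y, cs.length x ≤ b → cs.length y ≤ b → Joined cs Γ x y →
      Joined cs {z ∈ Γ | cs.length z ≤ b} x y := by
  have P := pre C hC
  have hr : C.S0.card ≤ Fintype.card B := Finset.card_le_univ _
  have hM := Mo_le C hN
  obtain ⟨c, rfl⟩ := hΓ
  refine ⟨fun x hx => ?_, fun x y hx hy h => ?_⟩
  · obtain ⟨y, a1, a2, a3⟩ := P.retract hr hM hb le_rfl (c := c⁻¹) x⁻¹
      (by simpa only [inv_inv] using hx.1) (by simpa only [inv_inv] using hx.2)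
    have h3 := a3.joined (K' := {x | LeL Cb x c ∧ LeL Cb c x})
      fun z hz => by simpa only [Set.mem_ofPred_eq, inv_inv] using hz
    rw [inv_inv] at h3
    exact ⟨y⁻¹, by simpa only [Set.mem_ofPred_eq, inv_inv] using a1, by rwa [cs.length_inv], h3⟩
  · have h1 := P.to_ball hr hM hb le_rfl (c := c⁻¹) (x := x⁻¹) (y := y⁻¹)
      (by rwa [cs.length_inv]) (by rwa [cs.length_inv])
      (h.jr fun z hz => by simpa only [Set.mem_ofPred_eq, inv_inv] using hz)
    have h2 := h1.joined (K' := {x ∈ {x | LeL Cb x c ∧ LeL Cb c x} | cs.length x ≤ b})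
      fun z hz => by simpa only [Set.mem_ofPred_eq, inv_inv, cs.length_inv] using hz
    rwa [inv_inv, inv_inv] at h2

theorem infinite_main (hb : 17 * Fintype.card B * N ^ 3 ≤ b) {Γ : Set W} (hΓ : IsLeftCell Cb Γ)
    {x : W} (hx : x ∈ Γ) (h : b < cs.length x) : {y | Joined cs Γ x y}.Infinite := by
  obtain ⟨c, rfl⟩ := hΓ
  have := (pre C hC).infinite (Finset.card_le_univ _) (Mo_le C hN) hb le_rfl (w := x⁻¹)
    (c := c⁻¹) (by rwa [cs.length_inv])
    (by simpa only [inv_inv] using hx.1) (by simpa only [inv_inv] using hx.2)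
  refine (this.image inv_injective.injOn).mono ?_
  rintro _ ⟨y, hy, rfl⟩
  have h1 := JR.joined (K' := {x | LeL Cb x c ∧ LeL Cb c x})
    (fun z hz => by simpa only [Set.mem_ofPred_eq, inv_inv] using hz) hy
  rwa [inv_inv] at h1

theorem count_main :
    ∃ F : Finset W, F.card ≤ N * (11 * Fintype.card B * N ^ 2) ^ Fintype.card B ∧
      ∀ Γ, IsLeftCell Cb Γ → ∀ x ∈ Γ, ∃ y ∈ F, Joined cs Γ x y := by
  obtain ⟨F, h1, h2⟩ := (pre C hC).count (Finset.card_le_univ _) (Mo_le C hN)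
  refine ⟨F.image (·⁻¹), Finset.card_image_le.trans h1, ?_⟩
  rintro _ ⟨c, rfl⟩ x hx
  obtain ⟨y, a1, a2⟩ := h2 c⁻¹ x⁻¹ (by simpa only [inv_inv] using hx.1)
    (by simpa only [inv_inv] using hx.2)
  have h3 := a2.joined (K' := {x | LeL Cb x c ∧ LeL Cb c x})
    fun z hz => by simpa only [Set.mem_ofPred_eq, inv_inv] using hz
  rw [inv_inv] at h3
  exact ⟨y⁻¹, Finset.mem_image_of_mem _ a1, h3⟩

end Pool.Agent.P.MP_19ae20_al
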