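import Pool.Agent.P.MP_74db7f_al.F.G4

/-! Alcove geometry: weak order, deep alcoves, short invariant translations. -/

namespace Pool.Agent.P.MP_19ae20_al

open Pool.Agent.P.MP_74db7f_al
open scoped Classical

variable {B W : Type*} [Group W] {M : CoxeterMatrix B} {cs : CoxeterSystem M W} (D : AD cs)

theorem sum_R (f : Du D.n → ℤ) :
    ∑ γ ∈ D.R, f γ = ∑ γ ∈ D.Rp, f γ + ∑ γ ∈ D.Rp, f (-γ) := by
  rw [← Finset.sum_filter_add_sum_filter_not D.R fun γ => D.mu 1 γ = 0]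
  congr 1
  refine Finset.sum_nbij' (fun γ => -γ) (fun γ => -γ) (fun γ h => ?_) (fun γ h => ?_)
    (fun γ _ => neg_neg γ) (fun γ _ => neg_neg γ) fun γ _ => by rw [neg_neg]
  · obtain ⟨h1, h2⟩ := Finset.mem_filter.1 h
    exact (D.neg_mem_Rp h1).2 fun h3 => h2 (D.mem_Rp.1 h3).2
  · obtain ⟨h1, h2⟩ := D.mem_Rp.1 h
    refine Finset.mem_filter.2 ⟨D.neg_mem γ h1, ?_⟩
    rw [D.mu_neg 1 γ h1]
    omega

theorem two_length (w : W) :
    2 * (cs.length w : ℤ) = ∑ γ ∈ D.R, |D.mu w γ - D.mu 1 γ| := by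
  rw [sum_R, D.length_eq, two_mul]
  congr 1
  · exact Finset.sum_congr rfl fun γ h => by rw [(D.mem_Rp.1 h).2, sub_zero]
  · refine Finset.sum_congr rfl fun γ h => ?_
    obtain ⟨h1, h2⟩ := D.mem_Rp.1 h
    rw [D.mu_neg w γ h1, D.mu_neg 1 γ h1, h2, ← abs_neg]
    congr 1
    ring

theorem two_dist (x y : W) :
    2 * (cs.length (x⁻¹ * y) : ℤ) = ∑ γ ∈ D.R, |D.mu y γ - D.mu x γ| := by
  rw [two_length D, ← D.sum_pb x⁻¹ fun γ => |D.mu y γ - D.mu x γ|]
  refine Finset.sum_congr rfl fun γ h => ?_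
  have e := D.mu_mul x⁻¹ x h
  rw [inv_mul_cancel] at e
  rw [D.mu_mul x⁻¹ y h, e]
  congr 1
  ring

/-- `x` lies between `1` and `y` -/
def Btw (x y : W) : Prop :=
  ∀ δ ∈ D.R, (D.mu 1 δ ≤ D.mu x δ ∧ D.mu x δ ≤ D.mu y δ) ∨
    (D.mu y δ ≤ D.mu x δ ∧ D.mu x δ ≤ D.mu 1 δ)

variable {D} in
theorem Btw.len {x y : W} (h : Btw D x y) :
    cs.length (x * (x⁻¹ * y)) = cs.length x + cs.length (x⁻¹ * y) := by
  have h1 := two_length D x
  have h2 := two_length D y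
  have h3 := two_dist D x y
  have h4 : ∑ γ ∈ D.R, |D.mu y γ - D.mu 1 γ| =
      ∑ γ ∈ D.R, |D.mu x γ - D.mu 1 γ| + ∑ γ ∈ D.R, |D.mu y γ - D.mu x γ| := by
    rw [← Finset.sum_add_distrib]
    refine Finset.sum_congr rfl fun γ hγ => ?_
    rcases h γ hγ with ⟨a, b⟩ | ⟨a, b⟩
    · rw [abs_of_nonneg (by omega), abs_of_nonneg (by omega), abs_of_nonneg (by omega)]
      ring
    · rw [abs_of_nonpos (by omega), abs_of_nonpos (by omega), abs_of_nonpos (by omega)]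
      ring
  rw [mul_inv_cancel_left]
  omega

/-- the alcove `w` is `k` steps deep in the direction `ν` -/
def Deep (ν : Lat D.n) (k : ℤ) (w : W) : Prop :=
  ∀ γ ∈ D.R, 0 < γ ν → k * γ ν ≤ D.mu w γ

theorem mu_step_abs (w : W) (i : B) {γ : Du D.n} (h : γ ∈ D.R) :
    D.mu w γ - 1 ≤ D.mu (w * cs.simple i) γ ∧ D.mu (w * cs.simple i) γ ≤ D.mu w γ + 1 := by
  by_cases e : D.pb w γ = D.sr i
  · rw [D.mu_step h e]
    omega
  · by_cases e' : D.pb w γ = -D.sr i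
    · rw [D.mu_step_neg h e']
      omega
    · rw [D.mu_step_ne h e e']
      omega

variable {D} {ν : Lat D.n} {k : ℤ} {w : W}

theorem Deep.neg (h : Deep D ν k w) {γ : Du D.n} (hγ : γ ∈ D.R) (h0 : γ ν < 0) :
    D.mu w γ ≤ -1 + k * γ ν := by
  have := h (-γ) (D.neg_mem γ hγ) (by rw [LinearMap.neg_apply]; omega)
  rw [D.mu_neg w γ hγ, LinearMap.neg_apply, mul_neg] at this
  omega

theorem Deep.step (h : Deep D ν (k + 1) w) (i : B) : Deep D ν k (w * cs.simple i) :=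
  fun γ hγ h0 => by
    have a := h γ hγ h0
    have b := (mu_step_abs D w i hγ).1
    rw [add_mul, one_mul] at a
    omega

theorem Deep.mono (h : Deep D ν k w) {k' : ℤ} (hk : k' ≤ k) : Deep D ν k' w :=
  fun γ hγ h0 => (mul_le_mul_of_nonneg_right hk h0.le).trans (h γ hγ h0)

theorem Deep.tr (h : Deep D ν k w) (j : ℤ) : Deep D ν (k + j) (D.tr (j • ν) * w) :=
  fun γ hγ h0 => by
    have a := h γ hγ h0
    rw [D.mu_tr _ _ γ hγ, map_zsmul, smul_eq_mul, add_mul]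
    omega

theorem Deep.btw (h : Deep D ν 0 w) {j : ℤ} (hj : 0 ≤ j) : Btw D w (D.tr (j • ν) * w) :=
  fun δ hδ => by
    have a := D.mu_one δ hδ
    rw [D.mu_tr _ _ δ hδ, map_zsmul, smul_eq_mul]
    rcases lt_trichotomy (δ ν) 0 with b | b | b
    · have c := h.neg hδ b
      have d := mul_nonpos_of_nonneg_of_nonpos hj b.le
      omega
    · rw [b, mul_zero]
      omega
    · have c := h δ hδ b
      have d := mul_nonneg hj b.le
      omega

/-- normal form of a deep alcove -/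
theorem Deep.normal (hk : 0 ≤ k) (h : Deep D ν k w) : ∃ u ∈ D.W0, ∃ g x, D.ADom D.S0 g ∧
    D.Dom D.S0 x ∧ ∀ j : ℤ, u * (D.tr (j • x) * g) = D.tr ((j - k) • ν) * w := by
  obtain ⟨u, hu, hg⟩ := D.exists_adom (Finset.Subset.refl D.S0) w
  have hu' : u⁻¹ ∈ D.W0 := inv_mem hu
  have e : ∀ j, D.mu (u⁻¹ * w) (D.sr j) = D.mu w (D.pb u⁻¹ (D.sr j)) := fun j =>
    D.mu_fin hu' w (D.sr_mem j)
  have hx : D.Dom D.S0 (D.gr u⁻¹ ν) := fun j hj => by
    by_contra a
    have b := h.neg (D.pb_mem u⁻¹ (D.sr_mem j)) (not_le.1 a)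
    have c := hg j hj
    have d := mul_nonpos_of_nonneg_of_nonpos hk (not_le.1 a).le
    rw [e] at c
    rw [AD.pb_apply] at b
    omega
  refine ⟨u, hu, D.tr (-k • D.gr u⁻¹ ν) * (u⁻¹ * w), D.gr u⁻¹ ν, fun j hj => ?_, hx, fun j => ?_⟩
  · rw [D.mu_tr _ _ _ (D.sr_mem j), map_zsmul, smul_eq_mul, neg_mul]
    rcases (hx j hj).eq_or_lt with a | a
    · have c := hg j hj
      rw [← a]
      omega
    · have c := h _ (D.pb_mem u⁻¹ (D.sr_mem j)) a
      rw [e]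
      rw [AD.pb_apply] at c
      omega
  · rw [← mul_assoc (D.tr _), ← D.tr_add, ← add_smul, ← mul_assoc, D.conj, map_zsmul,
      D.gr_gr_inv, mul_assoc, mul_inv_cancel_left, sub_eq_add_neg]

variable (D)

theorem xp_small (i : B) {γ : Du D.n} (h : γ ∈ D.R) : |γ (D.xp (cs.simple i))| ≤ 2 := by
  have a := D.mu_eq (cs.simple i) h
  have b := mu_step_abs D 1 i h
  have c := D.mu_one γ h
  have d := D.mu_one _ (D.pb_mem (cs.simple i) h)
  rw [one_mul] at b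
  rw [abs_le]
  omega

theorem exists_short {f : Du D.n} (hf : f ≠ 0) :
    ∃ y, f y ≠ 0 ∧ ∀ γ ∈ D.R, |γ y| ≤ 2 := by
  by_contra hc
  have h : ∀ w i, f (D.gr w (D.xp (cs.simple i))) = 0 := fun w i => by
    by_contra a
    exact hc ⟨_, a, fun γ hγ => xp_small D i (D.pb_mem w hγ)⟩
  have h2 : ∀ w, f (D.xp w) = 0 := fun w => by
    induction w using cs.simple_induction_right with
    | one => rw [D.xp_W0 (one_mem _), map_zero]
    | mul_simple_right w i ih => rw [D.xp_mul, map_add, ih, h, add_zero]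
  exact hf (LinearMap.ext fun x => by rw [← D.xp_tr x, h2, LinearMap.zero_apply])

theorem co_small {γ δ : Du D.n} (hγ : γ ∈ D.R) (hδ : δ ∈ D.R) : |δ (D.co γ)| ≤ 4 := by
  obtain ⟨y, h0, hy⟩ := exists_short D (D.root_ne_zero hγ)
  have a := hy _ hδ
  have b := hy _ (D.pb_mem (D.rf γ) hδ)
  rw [AD.pb_apply, (D.co_spec hγ).2.2, map_sub, map_zsmul, smul_eq_mul] at b
  have c : |γ y * δ (D.co γ)| ≤ 4 := by
    rw [abs_le] at a b ⊢
    omega
  rw [abs_mul] at c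
  have d : 1 ≤ |γ y| := Int.one_le_abs h0
  nlinarith [abs_nonneg (δ (D.co γ))]

theorem exists_lam {i : B} (hi : i ∈ D.S0) : ∃ x : Lat D.n,
    (∀ j ∈ D.S0, j ≠ i → D.sr j x = 0) ∧ 0 < D.sr i x ∧ ∀ γ ∈ D.R, |γ x| ≤ 2 * D.Mo := by
  have hJ : D.S0.erase i ⊆ D.S0 := Finset.erase_subset _ _
  have hf : D.sr i ∘ₗ D.deg (D.S0.erase i) ≠ 0 := fun e => by
    have a := LinearMap.congr_fun e (D.cw i)
    have hfix : D.Fix (D.S0.erase i) (D.cw i) := fun j hj =>
      D.cw_ne i hi j (hJ hj) (Finset.ne_of_mem_erase hj).symm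
    rw [LinearMap.comp_apply, D.deg_of_fix hJ hfix, map_zsmul, D.cw_self i hi, smul_eq_mul,
      LinearMap.zero_apply] at a
    have b := D.card_WF_pos hJ
    have c := D.m_pos
    have : (0 : ℤ) < ((D.WF (D.S0.erase i)).card : ℤ) * D.m := by positivity
    omega
  obtain ⟨y, h0, hy⟩ := exists_short D hf
  have hb : ∀ γ ∈ D.R, |γ (D.deg (D.S0.erase i) y)| ≤ 2 * D.Mo := fun γ hγ => by
    rw [D.deg_apply, map_sum]
    refine (Finset.abs_sum_le_sum_abs _ _).trans ?_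
    refine (Finset.sum_le_card_nsmul _ _ 2 fun u _ => hy _ (D.pb_mem u hγ)).trans ?_
    have : (D.WF (D.S0.erase i)).card ≤ D.Mo := Finset.card_le_card fun u hu =>
      (D.mem_WF (Finset.Subset.refl _)).2 (D.WJ_mono hJ ((D.mem_WF hJ).1 hu))
    rw [nsmul_eq_mul]
    omega
  have hz : ∀ j ∈ D.S0, j ≠ i → D.sr j (D.deg (D.S0.erase i) y) = 0 := fun j hj hne =>
    D.fix_deg hJ y j (Finset.mem_erase.2 ⟨hne, hj⟩)
  rw [LinearMap.comp_apply] at h0
  rcases lt_or_gt_of_ne h0 with a | a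
  · exact ⟨-D.deg (D.S0.erase i) y, fun j hj hne => by rw [map_neg, hz j hj hne, neg_zero],
      by rw [map_neg]; omega, fun γ hγ => by rw [map_neg, abs_neg]; exact hb γ hγ⟩
  · exact ⟨_, hz, a, hb⟩

theorem adom_pos {g : W} (hg : D.ADom D.S0 g) {δ : Du D.n} (h : δ ∈ D.Rp) : 0 ≤ D.mu g δ :=
  D.mu_adom (Finset.Subset.refl _) hg h (by rw [D.z_S0, map_zero])

theorem dom_pos {x : Lat D.n} (hx : D.Dom D.S0 x) {δ : Du D.n} (h : δ ∈ D.Rp) : 0 ≤ δ x :=
  D.root_dom (Finset.Subset.refl _) hx h (by rw [D.z_S0, map_zero])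

theorem exists_deep (k : ℕ) (w : W) {γ : Du D.n} (hγ : γ ∈ D.R)
    (h : 2 * k * D.S0.card * D.Mo < D.mu w γ) : ∃ ν, 0 < γ ν ∧ Deep D ν k w := by
  obtain ⟨u, hu, hg⟩ := D.exists_adom (Finset.Subset.refl D.S0) w
  set g := u⁻¹ * w with hgd
  have hw : ∀ γ' ∈ D.R, D.mu w γ' = D.mu g (D.pb u γ') := fun γ' h' => by
    rw [← D.mu_fin hu g h', hgd, mul_inv_cancel_left]
  have hδ := D.pb_mem u hγ
  have h0 : (0 : ℤ) ≤ 2 * k * D.S0.card * D.Mo := by positivity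
  have hδp : D.pb u γ ∈ D.Rp := by
    by_contra a
    have b := adom_pos D hg ((D.neg_mem_Rp hδ).2 a)
    rw [D.mu_neg _ _ hδ, ← hw γ hγ] at b
    omega
  have hl : ∀ i, ∃ x : Lat D.n, i ∈ D.S0 → (∀ j ∈ D.S0, j ≠ i → D.sr j x = 0) ∧
      0 < D.sr i x ∧ ∀ γ ∈ D.R, |γ x| ≤ 2 * D.Mo := fun i => by
    by_cases hi : i ∈ D.S0
    · obtain ⟨x, hx⟩ := exists_lam D hi
      exact ⟨x, fun _ => hx⟩
    · exact ⟨0, fun a => absurd a hi⟩
  choose l hl using hl
  have hdom : ∀ i ∈ D.S0, D.Dom D.S0 (l i) := fun i hi j hj => by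
    by_cases e : j = i
    · rw [e]
      exact (hl i hi).2.1.le
    · exact ((hl i hi).1 j hj e).ge
  by_contra hc
  have h1 : ∀ i ∈ D.S0, 0 < D.pb u γ (l i) → D.mu g (D.sr i) < k * D.sr i (l i) := by
    intro i hi hp
    by_contra a
    refine hc ⟨D.gr u (l i), hp, fun γ' h' hp' => ?_⟩
    have hg0 : D.ADom D.S0 (D.tr (-(k : ℤ) • l i) * g) := fun j hj => by
      rw [D.mu_tr _ _ _ (D.sr_mem j), map_zsmul, smul_eq_mul, neg_mul]
      by_cases e : j = i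
      · rw [e]
        omega
      · have := hg j hj
        rw [(hl i hi).1 j hj e]
        omega
    have h2 := D.pb_mem u h'
    have h3 : D.pb u γ' ∈ D.Rp := by
      by_contra b
      have := dom_pos D (hdom i hi) ((D.neg_mem_Rp h2).2 b)
      rw [LinearMap.neg_apply, AD.pb_apply] at this
      omega
    have h4 := adom_pos D hg0 h3
    rw [D.mu_tr _ _ _ h2, map_zsmul, smul_eq_mul, neg_mul, AD.pb_apply, ← hw γ' h'] at h4
    omega
  have h2 : D.m * D.pb u γ (D.xp g - (k : ℤ) • ∑ i ∈ D.S0, l i) ≤ 0 := by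
    rw [D.m_mul_root]
    refine Finset.sum_nonpos fun j hj => ?_
    rcases (D.root_cw_nonneg hδp hj).eq_or_lt with a | a
    · rw [← a, mul_zero]
    · refine mul_nonpos_of_nonpos_of_nonneg ?_ a.le
      have b := D.m_mul_root (D.pb u γ) (l j)
      rw [Finset.sum_eq_single_of_mem j hj fun i hi hne => by
        rw [(hl j hj).1 i hi hne, zero_mul]] at b
      have c : 0 < D.pb u γ (l j) := by
        by_contra c
        have c1 := mul_nonpos_of_nonneg_of_nonpos D.m_pos.le (not_lt.1 c)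
        have c2 := mul_pos (hl j hj).2.1 a
        omega
      have d := h1 j hj c
      have e := D.mu_eq g (D.sr_mem j)
      have f := D.mu_one _ (D.pb_mem g (D.sr_mem j))
      rw [map_sub, map_zsmul, map_sum, Finset.sum_eq_single_of_mem j hj fun i hi hne =>
        (hl i hi).1 j hj hne.symm, smul_eq_mul]
      omega
  have h3 : D.pb u γ (D.xp g - (k : ℤ) • ∑ i ∈ D.S0, l i) ≤ 0 := by
    by_contra a
    have := mul_pos D.m_pos (not_le.1 a)
    omega
  have h4 : ∑ i ∈ D.S0, D.pb u γ (l i) ≤ D.S0.card * (2 * D.Mo) := by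
    refine (Finset.sum_le_card_nsmul _ _ (2 * (D.Mo : ℤ)) fun i hi =>
      (le_abs_self _).trans ((hl i hi).2.2 _ hδ)).trans ?_
    rw [nsmul_eq_mul]
  rw [map_sub, map_zsmul, map_sum, smul_eq_mul] at h3
  have h5 := mul_le_mul_of_nonneg_left h4 (Int.natCast_nonneg k)
  have e := D.mu_eq g hδ
  have f := D.mu_one _ (D.pb_mem g hδ)
  rw [← hw γ hγ] at e
  have h6 : (k : ℤ) * (D.S0.card * (2 * D.Mo)) = 2 * k * D.S0.card * D.Mo := by ring
  omega

theorem card_Rp : D.Rp.card ≤ D.Mo := by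
  refine Finset.card_le_card_of_injOn D.rf (fun γ h => ?_) fun γ h γ' h' e => ?_
  · exact (D.mem_WF (Finset.Subset.refl _)).2 (D.co_spec (D.mem_Rp.1 h).1).2.1
  · have hγ := (D.mem_Rp.1 h).1
    have hγ' := (D.mem_Rp.1 h').1
    obtain ⟨w, i, h1, h2⟩ := D.exists_wall hγ 0
    have h3 := D.wall_refl hγ h1
    rw [h2, zero_smul, D.tr_zero, one_mul, e, mul_inv_eq_iff_eq_mul] at h3
    have h4 : D.pb (D.rf γ') γ' = -γ' := LinearMap.ext fun x => by
      rw [AD.pb_apply, (D.co_spec hγ').2.2, map_sub, map_zsmul, (D.co_spec hγ').1, smul_eq_mul,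
        LinearMap.neg_apply]
      ring
    have h5 := D.mu_fin (D.co_spec hγ').2.1 w hγ'
    rw [← h3, h4, D.mu_neg w _ hγ'] at h5
    by_contra hne
    have h6 := D.wall_ne h (Or.inl h1) h' fun a => hne a.symm
    omega

theorem exists_far {w : W} {K : ℕ} (h : D.Mo * (K + 1) < cs.length w) :
    ∃ γ ∈ D.R, (K : ℤ) < D.mu w γ := by
  by_contra hc
  have h1 : ∀ γ ∈ D.R, D.mu w γ ≤ K := fun γ hγ => not_lt.1 fun a => hc ⟨γ, hγ, a⟩
  have h2 : ∑ γ ∈ D.Rp, |D.mu w γ| ≤ D.Rp.card • ((K : ℤ) + 1) :=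
    Finset.sum_le_card_nsmul _ _ _ fun γ hγ => by
      have hR := (D.mem_Rp.1 hγ).1
      have a := h1 γ hR
      have b := h1 _ (D.neg_mem γ hR)
      rw [D.mu_neg w γ hR] at b
      rw [abs_le]
      omega
  rw [← D.length_eq, nsmul_eq_mul] at h2
  have h3 : (D.Rp.card : ℤ) * (K + 1) ≤ D.Mo * (K + 1) :=
    mul_le_mul_of_nonneg_right (by exact_mod_cast card_Rp D) (by positivity)
  have h4 : (D.Mo : ℤ) * (K + 1) < cs.length w := by exact_mod_cast h
  omega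

theorem length_refl {w : W} {i : B} {γ : Du D.n} (h : γ ∈ D.R) (e : D.pb w γ = D.sr i) :
    (cs.length (w * cs.simple i * w⁻¹) : ℤ) ≤ D.Mo * (1 + 4 * |D.mu w γ|) := by
  rw [D.wall_refl h e, D.length_eq]
  refine (Finset.sum_le_card_nsmul _ _ (1 + 4 * |D.mu w γ|) fun δ hδ => ?_).trans ?_
  · have hR := (D.mem_Rp.1 hδ).1
    rw [D.mu_tr _ _ δ hR, map_zsmul, smul_eq_mul]
    refine (abs_add_le _ _).trans (add_le_add ?_ ?_)
    · rcases D.mu_W0 (D.co_spec h).2.1 hR with a | a <;> rw [a.1] <;> simp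
    · rw [abs_mul, mul_comm]
      exact mul_le_mul_of_nonneg_right (co_small D h hR) (abs_nonneg _)
  · rw [nsmul_eq_mul]
    exact mul_le_mul_of_nonneg_right (by exact_mod_cast card_Rp D) (by positivity)

/-- the alcoves all of whose levels are at most `K` -/
theorem card_box (K : ℕ) : ∃ F : Finset W, F.card ≤ D.Mo * (2 * K + 3) ^ D.S0.card ∧
    ∀ w, (∀ γ ∈ D.R, D.mu w γ ≤ K) → w ∈ F := by
  let P := D.WF D.S0 ×ˢ Fintype.piFinset fun _ : D.S0 => Finset.Icc (-(K : ℤ) - 1) (K + 1)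
  let f : W → W × (D.S0 → ℤ) := fun w => (D.fp w, fun j => D.sr j (D.xp w))
  have hf : Function.Injective f := fun w w' e => by
    have e1 : D.fp w = D.fp w' := congrArg Prod.fst e
    have e2 : D.xp w = D.xp w' := by
      rw [← sub_eq_zero]
      refine D.sep _ fun j hj => ?_
      have : D.sr j (D.xp w) = D.sr j (D.xp w') := congrFun (congrArg Prod.snd e) ⟨j, hj⟩
      rw [map_sub, this, sub_self]
    rw [← D.tr_xp_fp w, e1, e2, D.tr_xp_fp]
  refine ⟨P.preimage f hf.injOn, ?_, fun w hw => ?_⟩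
  · refine (Finset.card_le_card_of_injOn f (fun w h => Finset.mem_preimage.1 h)
      hf.injOn).trans ?_
    rw [Finset.card_product, Fintype.card_piFinset, Finset.prod_const, Int.card_Icc,
      Finset.card_univ, Fintype.card_coe]
    have : ((K : ℤ) + 1 + 1 - (-(K : ℤ) - 1)).toNat = 2 * K + 3 := by omega
    rw [this]
    rfl
  · refine Finset.mem_preimage.2 (Finset.mem_product.2
      ⟨(D.mem_WF (Finset.Subset.refl _)).2 (D.fp_mem w), Fintype.mem_piFinset.2 fun j => ?_⟩)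
    have a := hw _ (D.sr_mem j)
    have b := hw _ (D.neg_mem _ (D.sr_mem j))
    have c := D.mu_eq w (D.sr_mem j)
    have d := D.mu_one _ (D.pb_mem w (D.sr_mem j))
    rw [D.mu_neg w _ (D.sr_mem j)] at b
    rw [Finset.mem_Icc]
    show -(K : ℤ) - 1 ≤ D.sr j (D.xp w) ∧ D.sr j (D.xp w) ≤ K + 1
    omega

end Pool.Agent.P.MP_19ae20_al
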